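import Pool.Agent.P.MP_833f7a_lc.Main

/-! A weakly compact cardinal with the `Σ₁` perfect embedding property gives a set-sized
transitive model of ZFC with a weakly compact cardinal above a set of measurable cardinals whose
order type is its minimum. -/

universe u

open ZFSet Pool.Agent.Lib.Forcing Pool.Agent.P.MP_af0a18_lc Pool.Agent.P.MP_37b794_lc
  Pool.Agent.P.MP_833f7a_lc

theorem Pool.Agent.Results.MP_833f7a_lc.LongSeq.result (κ : Cardinal.{u}) (hκ : WeaklyCompact κ)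
    (hP : PerfectSetProp κ) :
    ∃ M : ZFSet.{u}, IsZFModel (M : Set ZFSet.{u}) ∧ Choice (M : Set ZFSet.{u}) ∧
      ∃ δ ∈ M, ∃ S ∈ M, WeaklyCompactIn M δ ∧
        (∀ μ ∈ S, μ ∈ δ ∧ omega ∈ μ ∧ MeasurableIn M μ) ∧
        ∃ m ∈ S, (∀ μ ∈ S, m ⊆ μ) ∧ OrderTypeIn M S m :=
  main hκ hP
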